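import Mathlib

namespace Pool.Agent.Helper38.IP

open Finset Matrix

variable {ι : Type} [Fintype ι] [DecidableEq ι]

theorem exists_diag (A : Matrix ι ι ℝ) (hA : A.IsSymm) :
    ∃ (U : Matrix ι ι ℝ) (α : ι → ℝ), Uᵀ * U = 1 ∧ U * Uᵀ = 1 ∧ A = U * diagonal α * Uᵀ := by
  have hA' : A.IsHermitian := by
    unfold Matrix.IsHermitian
    rw [conjTranspose_eq_transpose_of_trivial]
    exact hA
  refine ⟨(hA'.eigenvectorUnitary : Matrix ι ι ℝ), hA'.eigenvalues, ?_, ?_, ?_⟩
  · have := Unitary.coe_star_mul_self hA'.eigenvectorUnitary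
    rw [star_eq_conjTranspose, conjTranspose_eq_transpose_of_trivial] at this
    exact this
  · have := Unitary.coe_mul_star_self hA'.eigenvectorUnitary
    rw [Unitary.coe_star, star_eq_conjTranspose, conjTranspose_eq_transpose_of_trivial] at this
    exact this
  · have := hA'.spectral_theorem
    rw [Unitary.conjStarAlgAut_apply] at this
    rw [star_eq_conjTranspose, conjTranspose_eq_transpose_of_trivial] at this
    exact this

theorem exp_diag (U : Matrix ι ι ℝ) (α : ι → ℝ) (h1 : Uᵀ * U = 1) (h2 : U * Uᵀ = 1) (r : ℝ) :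
    NormedSpace.exp (-(r • (U * diagonal α * Uᵀ))) =
      U * diagonal (fun i => Real.exp (-(r * α i))) * Uᵀ := by
  have hinv : U⁻¹ = Uᵀ := Matrix.inv_eq_right_inv h2
  have hu : IsUnit U := ⟨⟨U, Uᵀ, h2, h1⟩, rfl⟩
  have e1 : -(r • (U * diagonal α * Uᵀ)) = U * diagonal (fun i => -(r * α i)) * U⁻¹ := by
    rw [hinv]
    have : diagonal (fun i => -(r * α i)) = -(r • diagonal α) := by
      ext i j
      by_cases hij : i = j
      · subst hij
        simp
      · simp [hij]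
    rw [this]
    simp [Matrix.mul_neg, Matrix.neg_mul]
  rw [e1, Matrix.exp_conj _ _ hu, Matrix.exp_diagonal, hinv]
  congr 2
  congr 1
  ext i
  rw [Pi.coe_exp, Real.exp_eq_exp_ℝ]

theorem quad_col (B M : Matrix ι ι ℝ) (i : ι) :
    (fun k => B k i) ⬝ᵥ (M *ᵥ fun k => B k i) = (Bᵀ * M * B) i i := by
  rw [Matrix.mul_assoc]
  rfl

/-- IP-E3 (linear algebra) -/
theorem trace_exp_le (A P : Matrix ι ι ℝ) (hA : A.IsSymm)
    (hP : P.IsSymm) (hPP : P * P = P) (hAP : A * P = P * A) (e : ℝ)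
    (he : ∀ u : ι → ℝ, P *ᵥ u = u → e * (u ⬝ᵥ u) ≤ u ⬝ᵥ (A *ᵥ u)) (s : ℝ) {t : ℝ} (ht : 0 ≤ t) :
    trace (NormedSpace.exp (-((s + t) • A)) * P) ≤
      Real.exp (-(t * e)) * trace (NormedSpace.exp (-(s • A)) * P) := by
  obtain ⟨U, α, h1, h2, hd⟩ := exists_diag A hA
  have hPt : Pᵀ = P := hP
  have htr : ∀ r : ℝ, trace (NormedSpace.exp (-(r • A)) * P) =
      ∑ i, Real.exp (-(r * α i)) * (Uᵀ * P * U) i i := by
    intro r
    rw [hd, exp_diag U α h1 h2 r]
    have : trace (U * diagonal (fun i => Real.exp (-(r * α i))) * Uᵀ * P) =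
        trace (diagonal (fun i => Real.exp (-(r * α i))) * (Uᵀ * P * U)) := by
      rw [Matrix.mul_assoc, Matrix.mul_assoc, Matrix.trace_mul_comm]
      simp only [Matrix.mul_assoc]
    rw [this]
    simp [Matrix.trace, Matrix.diagonal_mul]
  have hW : ∀ i, (Uᵀ * P * U) i i = (fun k => (P * U) k i) ⬝ᵥ (fun k => (P * U) k i) := by
    intro i
    have h3 := quad_col (P * U) (1 : Matrix ι ι ℝ) i
    rw [one_mulVec] at h3
    rw [h3, transpose_mul, hPt]
    have : Uᵀ * P * 1 * (P * U) = Uᵀ * (P * P) * U := by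
      simp only [Matrix.mul_assoc, Matrix.mul_one, Matrix.one_mul]
    rw [this, hPP]
  have hW0 : ∀ i, 0 ≤ (Uᵀ * P * U) i i := by
    intro i
    rw [hW]
    exact sum_nonneg fun k _ => mul_self_nonneg _
  have hWe : ∀ i, e * (Uᵀ * P * U) i i ≤ α i * (Uᵀ * P * U) i i := by
    intro i
    have h3 := he (fun k => (P * U) k i) (by
      have : (P *ᵥ fun k => (P * U) k i) = fun k => (P * (P * U)) k i := rfl
      rw [this, ← Matrix.mul_assoc, hPP])
    rw [← hW, quad_col, transpose_mul, hPt] at h3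
    have h4 : Uᵀ * P * A * (P * U) = Uᵀ * P * U * diagonal α := by
      calc Uᵀ * P * A * (P * U) = Uᵀ * (P * (A * P)) * U := by simp only [Matrix.mul_assoc]
        _ = Uᵀ * (P * (P * A)) * U := by rw [hAP]
        _ = Uᵀ * ((P * P) * A) * U := by simp only [Matrix.mul_assoc]
        _ = Uᵀ * (P * A) * U := by rw [hPP]
        _ = Uᵀ * (P * (U * diagonal α * Uᵀ)) * U := by rw [← hd]
        _ = Uᵀ * P * U * diagonal α * (Uᵀ * U) := by simp only [Matrix.mul_assoc]
        _ = Uᵀ * P * U * diagonal α := by rw [h1, Matrix.mul_one]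
    rw [h4, Matrix.mul_diagonal] at h3
    linarith
  rw [htr, htr, mul_sum]
  refine sum_le_sum fun i _ => ?_
  rw [← mul_assoc, ← Real.exp_add]
  rcases (hW0 i).eq_or_lt with h0 | h0
  · rw [← h0]
    simp
  · have h5 : e ≤ α i := le_of_mul_le_mul_right (hWe i) h0
    refine mul_le_mul_of_nonneg_right ?_ h0.le
    apply Real.exp_le_exp.2
    nlinarith

end Pool.Agent.Helper38.IP
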